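import Pool.Agent.H13.VM.Defs
import Pool.Agent.H8.VM.HDefs

/-! # Part Z of `h13_vamos_paper.md`: from the rank-level theorems to the frozen statement

`Mt r M`: `M` is a matroid on all of `Fin n`, of rank `r`. `bs r M` is its family of bases.
`pim s B` is the image of a family under a permutation, `Fix n r s` the families of bases of rank
`r` fixed by `s`, `du B` the family of bases of the dual. `C1`, `C2` are the two rank-level theorems
(parts H and U). `HasV8 M` is the Vamos minor property of the frozen statement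
(`Pool.Agent.H28.V8`), `HasPat r K` (`Pool.Agent.H8.VM`) says that some cell shows exactly the Vamos
pattern in the family `K` of nonbases, `Iso e M M'` and `isoClass M` are in `Pool.Agent.H8.VM`. -/

open scoped BigOperators
open Filter

namespace Pool.Agent.H97.VZ

open Pool.Agent.H28.Johnson Pool.Agent.H28.V8 Pool.Agent.H8.VM Pool.Agent.H13.VM

variable {n : ℕ}

/-- `M` is a matroid on all of `Fin n`, of rank `r` -/
def Mt (r : ℕ) (M : Matroid (Fin n)) : Prop := M.E = Set.univ ∧ M.eRank = (r : ℕ∞)

open Classical in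
/-- the bases of a matroid of rank `r` -/
noncomputable def bs (r : ℕ) (M : Matroid (Fin n)) : Finset (Finset (Fin n)) :=
  (Base n r).filter fun S => M.Indep (S : Set (Fin n))

lemma mem_bs {r : ℕ} {M : Matroid (Fin n)} {S : Finset (Fin n)} :
    S ∈ bs r M ↔ S.card = r ∧ M.Indep (S : Set (Fin n)) := by
  classical
  rw [bs, Finset.mem_filter, mem_Base]

/-- the image of a family under a permutation -/
def pim (s : Equiv.Perm (Fin n)) (B : Finset (Finset (Fin n))) : Finset (Finset (Fin n)) :=
  B.image fun X => X.image s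

open Classical in
/-- the matroids of rank `r` fixed by the permutation `s` -/
noncomputable def Fix (n r : ℕ) (s : Equiv.Perm (Fin n)) : Finset (Finset (Finset (Fin n))) :=
  (Mats n r).filter fun B => pim s B = B

/-- the bases of the dual matroid -/
def du (B : Finset (Finset (Fin n))) : Finset (Finset (Fin n)) := B.image fun X => Xᶜ

open Classical in
/-- the matroids of rank `r` without Vamos pattern -/
noncomputable def Fr (n r : ℕ) : Finset (Finset (Finset (Fin n))) :=
  (Mats n r).filter fun B => ¬ HasPat r (NB r B)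

/-- rank-level theorem H: few matroids of central rank have no Vamos pattern -/
def C1 : Prop := ∀ ε : ℝ, 0 < ε → ∀ᶠ n : ℕ in atTop, ∀ r : ℕ, 2 * r ≤ n → Cen n r →
  ((Fr n r).card : ℝ) ≤ ε * ((Mats n r).card : ℝ)

/-- rank-level theorem U: few matroids of central rank have a symmetry, counted with
multiplicity -/
def C2 : Prop := ∀ ε : ℝ, 0 < ε → ∀ᶠ n : ℕ in atTop, ∀ r : ℕ, 2 * r ≤ n → Cen n r →
  (∑ s ∈ (Finset.univ : Finset (Equiv.Perm (Fin n))).erase 1, ((Fix n r s).card : ℝ)) ≤
    ε * ((Mats n r).card : ℝ)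

lemma mem_Fix {r : ℕ} {s : Equiv.Perm (Fin n)} {B : Finset (Finset (Fin n))} :
    B ∈ Fix n r s ↔ IsMat n r B ∧ pim s B = B := by
  classical
  rw [Fix, Finset.mem_filter, mem_Mats]

lemma mem_Fr {r : ℕ} {B : Finset (Finset (Fin n))} :
    B ∈ Fr n r ↔ IsMat n r B ∧ ¬ HasPat r (NB r B) := by
  classical
  rw [Fr, Finset.mem_filter, mem_Mats]

lemma mem_pim {s : Equiv.Perm (Fin n)} {B : Finset (Finset (Fin n))} {Y : Finset (Fin n)} :
    Y ∈ pim s B ↔ ∃ X ∈ B, X.image s = Y := by
  rw [pim, Finset.mem_image]

lemma mem_du {B : Finset (Finset (Fin n))} {Y : Finset (Fin n)} : Y ∈ du B ↔ Yᶜ ∈ B := by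
  rw [du, Finset.mem_image]
  constructor
  · rintro ⟨X, hX, rfl⟩
    rwa [compl_compl]
  · intro h
    exact ⟨Yᶜ, h, compl_compl Y⟩

/-- all matroids on all of `Fin n` -/
def All (M : Matroid (Fin n)) : Prop := M.E = Set.univ

end Pool.Agent.H97.VZ
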