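import Pool.Agent.H97.VZ.Dual

/-! MODULE Z/AllC. The rank-level theorems for all central ranks, from `C1`, `C2` (ranks with
`2 r <= n`) by duality: if `2 r > n` use the rank `n - r` (which is central: `C(n, n-r) = C(n, r)`). -/

open scoped BigOperators
open Filter

namespace Pool.Agent.H97.VZ

open Pool.Agent.H28.Johnson Pool.Agent.H28.V8 Pool.Agent.H8.VM Pool.Agent.H13.VM

variable {n : ℕ}

theorem cen_dual {r : ℕ} (hr : r ≤ n) (h : Cen n r) : Cen n (n - r) := by
  obtain ⟨h1, h2, h3⟩ := h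
  refine ⟨?_, by omega, by omega⟩
  rwa [Nat.choose_symm hr]

theorem C1_all (h : C1) (ε : ℝ) (hε : 0 < ε) : ∀ᶠ n : ℕ in atTop, ∀ r : ℕ, Cen n r →
    ((Fr n r).card : ℝ) ≤ ε * ((Mats n r).card : ℝ) := by
  filter_upwards [h ε hε] with n hn r hc
  by_cases h2 : 2 * r ≤ n
  · exact hn r h2 hc
  · have hr : r ≤ n := by
      have := hc.2.2
      omega
    rw [← card_Fr_dual hr, ← card_Mats_dual hr]
    exact hn (n - r) (by omega) (cen_dual hr hc)

theorem C2_all (h : C2) (ε : ℝ) (hε : 0 < ε) : ∀ᶠ n : ℕ in atTop, ∀ r : ℕ, Cen n r →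
    (∑ s ∈ (Finset.univ : Finset (Equiv.Perm (Fin n))).erase 1, ((Fix n r s).card : ℝ)) ≤
      ε * ((Mats n r).card : ℝ) := by
  filter_upwards [h ε hε] with n hn r hc
  by_cases h2 : 2 * r ≤ n
  · exact hn r h2 hc
  · have hr : r ≤ n := by
      have := hc.2.2
      omega
    have h3 := hn (n - r) (by omega) (cen_dual hr hc)
    rw [card_Mats_dual hr] at h3
    refine le_trans (le_of_eq ?_) h3
    exact Finset.sum_congr rfl fun s _ => by rw [card_Fix_dual hr]

end Pool.Agent.H97.VZ
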