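import Pool.Agent.H97.VZ.Defs

/-! MODULE Z/Bridge (about 200 lines). Matroids `M : Matroid (Fin n)` with `Mt r M` correspond to
families `B` with `IsMat n r B` through `bs r`. -/

open scoped BigOperators

namespace Pool.Agent.H97.VZ

open Pool.Agent.H28.Johnson Pool.Agent.H28.V8 Pool.Agent.H8.VM Pool.Agent.H13.VM

variable {n : ℕ}

theorem indep_iff_isBase {r : ℕ} {M : Matroid (Fin n)} (hM : Mt r M) {S : Finset (Fin n)}
    (hS : S.card = r) : M.Indep (S : Set (Fin n)) ↔ M.IsBase (S : Set (Fin n)) := by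
  constructor
  · intro hI
    obtain ⟨B, hB, hTB⟩ := hI.exists_isBase_superset
    have h2 : B.encard = r := by rw [hB.encard_eq_eRank, hM.2]
    have h3 : (S : Set (Fin n)).encard = r := by
      rw [Set.encard_coe_eq_coe_finsetCard, hS]
    have h4 : (S : Set (Fin n)) = B :=
      S.finite_toSet.eq_of_subset_of_encard_le hTB (by rw [h2, h3])
    rw [h4]; exact hB
  · intro hB; exact hB.indep

/-- a base is the coercion of a finset with `r` elements -/
lemma exists_finset_of_isBase {r : ℕ} {M : Matroid (Fin n)} (hM : Mt r M) {B : Set (Fin n)}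
    (hB : M.IsBase B) : ∃ S : Finset (Fin n), S.card = r ∧ (S : Set (Fin n)) = B := by
  refine ⟨(Set.toFinite B).toFinset, ?_, (Set.toFinite B).coe_toFinset⟩
  have h := hB.encard_eq_eRank
  rw [hM.2, ← (Set.toFinite B).coe_toFinset, Set.encard_coe_eq_coe_finsetCard] at h
  exact_mod_cast h

lemma mem_bs_iff {r : ℕ} {M : Matroid (Fin n)} (hM : Mt r M) {S : Finset (Fin n)} :
    S ∈ bs r M ↔ M.IsBase (S : Set (Fin n)) := by
  rw [mem_bs]
  constructor
  · rintro ⟨h1, h2⟩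
    exact (indep_iff_isBase hM h1).mp h2
  · intro h
    obtain ⟨T, hT, hTS⟩ := exists_finset_of_isBase hM h
    have : T = S := Finset.coe_injective hTS
    subst this
    exact ⟨hT, h.indep⟩

theorem bs_isMat {r : ℕ} {M : Matroid (Fin n)} (hM : Mt r M) : IsMat n r (bs r M) := by
  classical
  refine ⟨Finset.filter_subset _ _, ?_, ?_⟩
  · obtain ⟨B, hB⟩ := M.exists_isBase
    obtain ⟨S, _, hS2⟩ := exists_finset_of_isBase hM hB
    exact ⟨S, (mem_bs_iff hM).mpr (hS2 ▸ hB)⟩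
  · intro X hX Y hY x hx
    rw [mem_bs_iff hM] at hX hY
    rw [Finset.mem_sdiff] at hx
    obtain ⟨y, hy, hy2⟩ := hX.exchange hY (e := x) ⟨by exact_mod_cast hx.1, by exact_mod_cast hx.2⟩
    refine ⟨y, Finset.mem_sdiff.mpr ⟨by exact_mod_cast hy.1, by exact_mod_cast hy.2⟩, ?_⟩
    rw [mem_bs_iff hM, Finset.coe_insert, Finset.coe_erase]
    exact hy2

theorem bs_inj {r : ℕ} {M M' : Matroid (Fin n)} (hM : Mt r M) (hM' : Mt r M')
    (h : bs r M = bs r M') : M = M' := by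
  refine Matroid.ext_isBase (hM.1.trans hM'.1.symm) ?_
  intro B _
  constructor
  · intro hB
    obtain ⟨S, _, rfl⟩ := exists_finset_of_isBase hM hB
    rw [← mem_bs_iff hM, h, mem_bs_iff hM'] at hB
    exact hB
  · intro hB
    obtain ⟨S, _, rfl⟩ := exists_finset_of_isBase hM' hB
    rw [← mem_bs_iff hM', ← h, mem_bs_iff hM] at hB
    exact hB

theorem exists_mt {r : ℕ} {B : Finset (Finset (Fin n))} (hB : IsMat n r B) :
    ∃ M : Matroid (Fin n), Mt r M ∧ bs r M = B := by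
  classical
  have hex : Matroid.ExchangeProperty
      (fun A : Set (Fin n) => ∃ S : Finset (Fin n), S ∈ B ∧ (S : Set (Fin n)) = A) := by
    rintro _ _ ⟨X, hX, rfl⟩ ⟨Y, hY, rfl⟩ x hx
    obtain ⟨y, hy, hy2⟩ := hB.2.2 X hX Y hY x
      (Finset.mem_sdiff.mpr ⟨by exact_mod_cast hx.1, by exact_mod_cast hx.2⟩)
    rw [Finset.mem_sdiff] at hy
    refine ⟨y, ⟨by exact_mod_cast hy.1, by exact_mod_cast hy.2⟩, _, hy2, ?_⟩
    rw [Finset.coe_insert, Finset.coe_erase]
  set M : Matroid (Fin n) := Matroid.ofIsBaseOfFinite (E := Set.univ) Set.finite_univ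
    (fun A => ∃ S : Finset (Fin n), S ∈ B ∧ (S : Set (Fin n)) = A)
    (by
      obtain ⟨S, hS⟩ := hB.2.1
      exact ⟨S, S, hS, rfl⟩)
    hex (fun _ _ => Set.subset_univ _) with hMdef
  have hbase : ∀ A : Set (Fin n), M.IsBase A ↔
      ∃ S : Finset (Fin n), S ∈ B ∧ (S : Set (Fin n)) = A := fun A => Iff.rfl
  have hMt : Mt r M := by
    refine ⟨rfl, ?_⟩
    obtain ⟨S, hS⟩ := hB.2.1
    have h1 : M.IsBase (S : Set (Fin n)) := (hbase _).mpr ⟨S, hS, rfl⟩
    rw [← h1.encard_eq_eRank, Set.encard_coe_eq_coe_finsetCard, hB.card_eq hS]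
  refine ⟨M, hMt, ?_⟩
  ext S
  rw [mem_bs_iff hMt, hbase]
  constructor
  · rintro ⟨T, hT, hTS⟩
    rwa [← Finset.coe_injective hTS]
  · intro hS
    exact ⟨S, hS, rfl⟩

open Classical in
theorem card_filter_bs (r : ℕ) (Q : Finset (Finset (Fin n)) → Prop) :
    Nat.card {M : Matroid (Fin n) // Mt r M ∧ Q (bs r M)} = ((Mats n r).filter Q).card := by
  rw [← Nat.card_eq_finsetCard]
  refine Nat.card_congr (Equiv.ofBijective
    (fun M : {M : Matroid (Fin n) // Mt r M ∧ Q (bs r M)} =>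
      (⟨bs r M.1, Finset.mem_filter.mpr ⟨mem_Mats.mpr (bs_isMat M.2.1), M.2.2⟩⟩ :
        {B // B ∈ (Mats n r).filter Q})) ⟨?_, ?_⟩)
  · intro M M' h
    exact Subtype.ext (bs_inj M.2.1 M'.2.1 (congrArg Subtype.val h))
  · rintro ⟨B, hB⟩
    rw [Finset.mem_filter, mem_Mats] at hB
    obtain ⟨M, hM, hMB⟩ := exists_mt hB.1
    refine ⟨⟨M, hM, by rw [hMB]; exact hB.2⟩, ?_⟩
    exact Subtype.ext hMB

end Pool.Agent.H97.VZ
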