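import Pool.Agent.H97.VZ.Defs
import Pool.Agent.H8.VM.H1a_Basic

/-! MODULE Z/Burn (about 150 lines). Burnside for isomorphism classes of matroids on `Fin n`.

For a property `Q` invariant under isomorphism let the group `Equiv.Perm (Fin n)` act on
`{M // M.E = univ and Q M}` by `e . M =` the matroid `M'` with `Iso e M M'` (`iso_exists`, e.g.
`M.mapEquiv e`; `iso_unique`, `iso_trans` give the axioms of an action; use `iso_refl` for `1`).
The orbits are the classes: `isoClass M = {N | N.E = univ and exists e, Iso e M N}`.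
`MulAction.sum_card_fixedBy_eq_card_orbits_mul_card_group` (Mathlib). `Iso e M M` says that `M` is
fixed by `e`. Finiteness of `Matroid (Fin n)`: `Pool.Agent.H28.V8.finite_matroid`. -/

open scoped BigOperators

namespace Pool.Agent.H97.VZ

open Pool.Agent.H28.V8 Pool.Agent.H8.VM

variable {n : ℕ}

/-- the action of a permutation on the matroids with the property `Q` -/
private noncomputable def burnMap (Q : Matroid (Fin n) → Prop)
    (hQ : ∀ (e : Equiv.Perm (Fin n)) (M M' : Matroid (Fin n)), M.E = Set.univ →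
      M'.E = Set.univ → Iso e M M' → Q M → Q M') (e : Equiv.Perm (Fin n))
    (M : {M : Matroid (Fin n) // M.E = Set.univ ∧ Q M}) :
    {M : Matroid (Fin n) // M.E = Set.univ ∧ Q M} :=
  ⟨(iso_exists e M.2.1).choose, (iso_exists e M.2.1).choose_spec.1,
    hQ e M.1 _ M.2.1 (iso_exists e M.2.1).choose_spec.1 (iso_exists e M.2.1).choose_spec.2 M.2.2⟩

private lemma burnMap_iso (Q : Matroid (Fin n) → Prop)
    (hQ : ∀ (e : Equiv.Perm (Fin n)) (M M' : Matroid (Fin n)), M.E = Set.univ →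
      M'.E = Set.univ → Iso e M M' → Q M → Q M') (e : Equiv.Perm (Fin n))
    (M : {M : Matroid (Fin n) // M.E = Set.univ ∧ Q M}) : Iso e M.1 (burnMap Q hQ e M).1 :=
  (iso_exists e M.2.1).choose_spec.2

private lemma burnMap_eq (Q : Matroid (Fin n) → Prop)
    (hQ : ∀ (e : Equiv.Perm (Fin n)) (M M' : Matroid (Fin n)), M.E = Set.univ →
      M'.E = Set.univ → Iso e M M' → Q M → Q M') (e : Equiv.Perm (Fin n))
    (M N : {M : Matroid (Fin n) // M.E = Set.univ ∧ Q M}) :
    burnMap Q hQ e M = N ↔ Iso e M.1 N.1 := by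
  constructor
  · intro h
    rw [← h]
    exact burnMap_iso Q hQ e M
  · intro h
    exact Subtype.ext (iso_unique (burnMap Q hQ e M).2.1 N.2.1 (burnMap_iso Q hQ e M) h)

private noncomputable def burnAct (Q : Matroid (Fin n) → Prop)
    (hQ : ∀ (e : Equiv.Perm (Fin n)) (M M' : Matroid (Fin n)), M.E = Set.univ →
      M'.E = Set.univ → Iso e M M' → Q M → Q M') :
    MulAction (Equiv.Perm (Fin n)) {M : Matroid (Fin n) // M.E = Set.univ ∧ Q M} where
  smul e M := burnMap Q hQ e M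
  one_smul M := (burnMap_eq Q hQ 1 M M).2 (iso_refl M.1)
  mul_smul e f M := (burnMap_eq Q hQ (e * f) M _).2
    (iso_trans (burnMap_iso Q hQ f M) (burnMap_iso Q hQ e _))

private lemma burn_class {M N : Matroid (Fin n)} (hN : N.E = Set.univ) :
    isoClass M = isoClass N ↔ ∃ e : Equiv.Perm (Fin n), Iso e M N := by
  constructor
  · intro h
    have h1 : N ∈ isoClass N := ⟨hN, 1, iso_refl N⟩
    rw [← h] at h1
    obtain ⟨_, e, he⟩ := h1
    exact ⟨e, he⟩
  · rintro ⟨e, h⟩
    ext K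
    constructor
    · rintro ⟨h1, f, hf⟩
      exact ⟨h1, f * e⁻¹, iso_trans (iso_symm h) hf⟩
    · rintro ⟨h1, f, hf⟩
      exact ⟨h1, f * e, iso_trans h hf⟩

theorem burnside (Q : Matroid (Fin n) → Prop)
    (hQ : ∀ (e : Equiv.Perm (Fin n)) (M M' : Matroid (Fin n)), M.E = Set.univ →
      M'.E = Set.univ → Iso e M M' → Q M → Q M') :
    Nat.card {S : Set (Matroid (Fin n)) // ∃ M : Matroid (Fin n),
        M.E = Set.univ ∧ Q M ∧ S = isoClass M} * n.factorial =
      ∑ s : Equiv.Perm (Fin n),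
        Nat.card {M : Matroid (Fin n) // (M.E = Set.univ ∧ Q M) ∧ Iso s M M} := by
  classical
  letI act := burnAct Q hQ
  have hsm : ∀ (e : Equiv.Perm (Fin n)) (M N : {M : Matroid (Fin n) // M.E = Set.univ ∧ Q M}),
      e • M = N ↔ Iso e M.1 N.1 := fun e M N => burnMap_eq Q hQ e M N
  have h1 := Nat.card_congr (MulAction.sigmaFixedByEquivOrbitsProdGroup
    (Equiv.Perm (Fin n)) {M : Matroid (Fin n) // M.E = Set.univ ∧ Q M})
  rw [Nat.card_prod, Nat.card_sigma, Nat.card_eq_fintype_card (α := Equiv.Perm (Fin n)),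
    Fintype.card_perm, Fintype.card_fin] at h1
  have h2 : ∀ s : Equiv.Perm (Fin n),
      Nat.card (MulAction.fixedBy {M : Matroid (Fin n) // M.E = Set.univ ∧ Q M} s) =
        Nat.card {M : Matroid (Fin n) // (M.E = Set.univ ∧ Q M) ∧ Iso s M M} := by
    intro s
    refine Nat.card_congr ⟨fun x => ⟨x.1.1, x.1.2, (hsm s x.1 x.1).1 x.2⟩,
      fun x => ⟨⟨x.1, x.2.1⟩, (hsm s ⟨x.1, x.2.1⟩ ⟨x.1, x.2.1⟩).2 x.2.2⟩, fun x => rfl,
      fun x => rfl⟩
  have h3 : Nat.card (MulAction.orbitRel.Quotient (Equiv.Perm (Fin n))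
      {M : Matroid (Fin n) // M.E = Set.univ ∧ Q M}) =
      Nat.card {S : Set (Matroid (Fin n)) // ∃ M : Matroid (Fin n),
        M.E = Set.univ ∧ Q M ∧ S = isoClass M} := by
    refine Nat.card_congr (Equiv.ofBijective (Quotient.lift
      (fun M : {M : Matroid (Fin n) // M.E = Set.univ ∧ Q M} =>
        (⟨isoClass M.1, M.1, M.2.1, M.2.2, rfl⟩ : {S : Set (Matroid (Fin n)) //
          ∃ M : Matroid (Fin n), M.E = Set.univ ∧ Q M ∧ S = isoClass M})) ?_) ⟨?_, ?_⟩)
    · intro M N h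
      obtain ⟨e, he⟩ := h
      have he' : e • N = M := he
      exact Subtype.ext (((burn_class M.2.1).2 ⟨e, (hsm e N M).1 he'⟩).symm)
    · intro a b
      refine Quotient.inductionOn₂ a b ?_
      intro M N h
      have h' : isoClass N.1 = isoClass M.1 := (congrArg Subtype.val h).symm
      obtain ⟨e, he⟩ := (burn_class M.2.1).1 h'
      exact Quotient.sound ⟨e, (hsm e N M).2 he⟩
    · rintro ⟨S, M, hM, hQM, rfl⟩
      exact ⟨Quotient.mk _ ⟨M, hM, hQM⟩, rfl⟩
  rw [← h3]
  have h4 : (∑ s : Equiv.Perm (Fin n),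
      Nat.card (MulAction.fixedBy {M : Matroid (Fin n) // M.E = Set.univ ∧ Q M} s)) =
      ∑ s : Equiv.Perm (Fin n),
        Nat.card {M : Matroid (Fin n) // (M.E = Set.univ ∧ Q M) ∧ Iso s M M} :=
    Finset.sum_congr rfl fun s _ => h2 s
  rw [← h4]
  exact h1.symm

end Pool.Agent.H97.VZ
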