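import Pool.Agent.H97.VZ.Defs

/-! MODULE Z/Dual (about 200 lines). The dual family `du B` (complements of the bases).

* `du_isMat`: `B` has the exchange property for `x in X \ Y`; the dual family needs the dual
  exchange: `X, Y in B`, `y in Y \ X` => there is `x in X \ Y` with `X - x + y in B`. Proof by
  induction on `(X \ Y).card`; if it is one, `Y = X - x + y`; otherwise take `y' <> y` in `Y \ X`,
  exchange `(Y, X, y')` gives `Y' = Y - y' + x' in B` closer to `X` with `y in Y' \ X` (paper, A1).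
  For complements: `X^c - x + y = (X - y + x)^c`.
* `hasPat_du`: the cell `(Y, phi)` of `B` gives the cell `((Y cup phi)^c, phi o sig)` of `du B`
  (`Pool.Agent.H28.V8.sig`, `patt_sig`; the computation with sets is in
  `Pool.Agent.H28.V8.hasV8_of_dual_pattern`: `(loc Y2 psi2 Q)^c = loc Y' psi (Q^c.map sig)`).
  `X in NB (n - r) (du B) <-> X^c in NB r B` for `r <= n`.
* `pim_du`: images of complements under a permutation.
* the cardinalities by the bijection `du` (`du_du`). -/

open scoped BigOperators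

namespace Pool.Agent.H97.VZ

open Pool.Agent.H28.Johnson Pool.Agent.H28.V8 Pool.Agent.H8.VM Pool.Agent.H13.VM

variable {n : ℕ}

theorem du_du (B : Finset (Finset (Fin n))) : du (du B) = B := by
  ext X
  rw [mem_du, mem_du, compl_compl]

/-- dual exchange -/
private theorem Dual_exch {r : ℕ} {B : Finset (Finset (Fin n))} (hB : IsMat n r B) :
    ∀ (k : ℕ) (X Y : Finset (Fin n)), X ∈ B → Y ∈ B → (X \ Y).card ≤ k → ∀ y ∈ Y \ X,
      ∃ x ∈ X \ Y, insert y (X.erase x) ∈ B := by
  intro k
  induction k with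
  | zero =>
    intro X Y hX hY hk y hy
    exfalso
    have h1 : (X \ Y).card = (Y \ X).card :=
      Finset.card_sdiff_comm ((hB.card_eq hX).trans (hB.card_eq hY).symm)
    have h2 : 0 < (Y \ X).card := Finset.card_pos.2 ⟨y, hy⟩
    omega
  | succ k ih =>
    intro X Y hX hY hk y hy
    have h1 : (X \ Y).card = (Y \ X).card :=
      Finset.card_sdiff_comm ((hB.card_eq hX).trans (hB.card_eq hY).symm)
    have hyY := (Finset.mem_sdiff.1 hy).1
    have hyX := (Finset.mem_sdiff.1 hy).2
    by_cases h2 : (Y \ X).card = 1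
    · have h3 : (X \ Y).card = 1 := h1.trans h2
      obtain ⟨x, hx⟩ := Finset.card_eq_one.1 h3
      obtain ⟨y1, hy1⟩ := Finset.card_eq_one.1 h2
      have hxm : x ∈ X \ Y := by rw [hx]; exact Finset.mem_singleton_self x
      refine ⟨x, hxm, ?_⟩
      have hyy : y = y1 := by
        rw [hy1] at hy
        exact Finset.mem_singleton.1 hy
      have hxX := (Finset.mem_sdiff.1 hxm).1
      have hxY := (Finset.mem_sdiff.1 hxm).2
      have heq : insert y (X.erase x) = Y := by
        ext w
        rw [Finset.mem_insert, Finset.mem_erase]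
        constructor
        · rintro (rfl | ⟨hw1, hw2⟩)
          · exact hyY
          · by_contra hw
            have : w ∈ X \ Y := Finset.mem_sdiff.2 ⟨hw2, hw⟩
            rw [hx] at this
            exact hw1 (Finset.mem_singleton.1 this)
        · intro hw
          by_cases hwX : w ∈ X
          · right
            refine ⟨?_, hwX⟩
            rintro rfl
            exact hxY hw
          · left
            have : w ∈ Y \ X := Finset.mem_sdiff.2 ⟨hw, hwX⟩
            rw [hy1] at this
            rw [hyy]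
            exact Finset.mem_singleton.1 this
      rw [heq]
      exact hY
    · have h3 : 0 < (Y \ X).card := Finset.card_pos.2 ⟨y, hy⟩
      have h4 : 1 < (Y \ X).card := by omega
      obtain ⟨y', hy', hne⟩ := Finset.exists_mem_ne h4 y
      obtain ⟨x', hx', hY'⟩ := hB.2.2 Y hY X hX y' hy'
      rw [Finset.mem_sdiff] at hx' hy'
      have h5 : X \ insert x' (Y.erase y') = (X \ Y).erase x' := by
        ext w
        simp only [Finset.mem_sdiff, Finset.mem_insert, Finset.mem_erase, not_or, not_and]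
        constructor
        · rintro ⟨hw1, hw2, hw3⟩
          refine ⟨hw2, hw1, ?_⟩
          apply hw3
          rintro rfl
          exact hy'.2 hw1
        · rintro ⟨hw1, hw2, hw3⟩
          exact ⟨hw2, hw1, fun _ => hw3⟩
      have h6 : (X \ insert x' (Y.erase y')).card ≤ k := by
        rw [h5, Finset.card_erase_of_mem (Finset.mem_sdiff.2 hx')]
        omega
      obtain ⟨x, hx, hx2⟩ := ih X _ hX hY' h6 y (by
        rw [Finset.mem_sdiff, Finset.mem_insert, Finset.mem_erase]
        exact ⟨Or.inr ⟨hne.symm, hyY⟩, hyX⟩)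
      rw [h5] at hx
      exact ⟨x, Finset.mem_of_mem_erase hx, hx2⟩

private theorem Dual_card {r : ℕ} (hr : r ≤ n) {X : Finset (Fin n)} :
    X.card = n - r ↔ Xᶜ.card = r := by
  have h1 := Finset.card_le_univ X
  rw [Fintype.card_fin] at h1
  rw [Finset.card_compl, Fintype.card_fin]
  omega

theorem du_isMat {r : ℕ} (hr : r ≤ n) {B : Finset (Finset (Fin n))} (hB : IsMat n r B) :
    IsMat n (n - r) (du B) := by
  refine ⟨?_, ?_, ?_⟩
  · intro X hX
    rw [mem_du] at hX
    rw [mem_Base, Dual_card hr]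
    exact hB.card_eq hX
  · obtain ⟨X, hX⟩ := hB.2.1
    exact ⟨Xᶜ, mem_du.2 (by rwa [compl_compl])⟩
  · intro X hX Y hY x hx
    rw [mem_du] at hX hY
    rw [Finset.mem_sdiff] at hx
    obtain ⟨y, hy, hy2⟩ := Dual_exch hB _ Xᶜ Yᶜ hX hY le_rfl x (by
      rw [Finset.mem_sdiff, Finset.mem_compl, Finset.mem_compl, not_not]
      exact ⟨hx.2, hx.1⟩)
    rw [Finset.mem_sdiff, Finset.mem_compl, Finset.mem_compl, not_not] at hy
    refine ⟨y, Finset.mem_sdiff.2 ⟨hy.2, hy.1⟩, ?_⟩
    rw [mem_du]
    have h1 : (insert y (X.erase x))ᶜ = insert x (Xᶜ.erase y) := by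
      ext w
      simp only [Finset.mem_compl, Finset.mem_insert, Finset.mem_erase, not_or, not_and, not_not]
      constructor
      · rintro ⟨hw1, hw2⟩
        by_cases hw : w = x
        · exact Or.inl hw
        · exact Or.inr ⟨hw1, hw2 hw⟩
      · rintro (rfl | ⟨hw1, hw2⟩)
        · refine ⟨?_, fun h => absurd rfl h⟩
          rintro rfl
          exact hy.1 hx.1
        · exact ⟨hw1, fun _ => hw2⟩
    rw [h1]
    exact hy2

private theorem Dual_img (s : Equiv.Perm (Fin n)) (X : Finset (Fin n)) :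
    Xᶜ.image s = (X.image s)ᶜ := by
  ext w
  obtain ⟨v, rfl⟩ := s.surjective w
  simp

theorem pim_du (s : Equiv.Perm (Fin n)) (B : Finset (Finset (Fin n))) :
    pim s (du B) = du (pim s B) := by
  ext Y
  rw [mem_pim, mem_du, mem_pim]
  constructor
  · rintro ⟨X, hX, rfl⟩
    rw [mem_du] at hX
    exact ⟨Xᶜ, hX, Dual_img s X⟩
  · rintro ⟨X, hX, hXY⟩
    refine ⟨Xᶜ, mem_du.2 (by rwa [compl_compl]), ?_⟩
    rw [Dual_img, hXY, compl_compl]

theorem hasPat_du {r : ℕ} (hr : r ≤ n) {B : Finset (Finset (Fin n))} (hB : IsMat n r B)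
    (h : HasPat r (NB r B)) : HasPat (n - r) (NB (n - r) (du B)) := by
  classical
  obtain ⟨⟨Y', ψ⟩, hc, hpat⟩ := h
  have hc' : Y'.card + 4 = r ∧ ∀ i, ψ i ∉ Y' := by
    rw [cells, Finset.mem_filter] at hc
    exact hc.2
  obtain ⟨hY'c, hd'⟩ := hc'
  set Y2 : Finset (Fin n) := (Y' ∪ Finset.univ.map ψ)ᶜ with hY2
  set ψ2 : Fin 8 ↪ Fin n := sig.toEmbedding.trans ψ with hψ2
  have hd2 : ∀ i, ψ2 i ∉ Y2 := by
    intro i hi
    rw [hY2, Finset.mem_compl, Finset.mem_union, not_or] at hi
    exact hi.2 (Finset.mem_map.mpr ⟨sig i, Finset.mem_univ _, rfl⟩)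
  have h8 : Y'.card + 8 ≤ n := by
    have h1 := loc_card hd' (Finset.univ : Finset (Fin 8))
    rw [Finset.card_univ, Fintype.card_fin] at h1
    rw [← h1]
    refine (Finset.card_le_univ _).trans ?_
    rw [Fintype.card_fin]
  have hY2c : Y2.card + 4 = n - r := by
    have h1 := loc_card hd' (Finset.univ : Finset (Fin 8))
    rw [loc] at h1
    rw [hY2, Finset.card_compl, Fintype.card_fin, h1, Finset.card_univ, Fintype.card_fin]
    omega
  refine ⟨(Y2, ψ2), ?_, ?_⟩
  · rw [cells, Finset.mem_filter]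
    exact ⟨Finset.mem_univ _, hY2c, hd2⟩
  · intro Q hQ
    have hcomp : (loc Y2 ψ2 Q)ᶜ = loc Y' ψ ((Qᶜ).map sig.toEmbedding) := by
      rw [loc, loc, hY2, Finset.compl_union, compl_compl]
      ext x
      simp only [hψ2, Finset.mem_compl, Finset.mem_union, Finset.mem_inter, Finset.mem_map,
        Finset.mem_univ, true_and, Function.Embedding.trans_apply, Equiv.coe_toEmbedding]
      constructor
      · rintro ⟨h1 | ⟨i, rfl⟩, h2⟩
        · exact Or.inl h1
        · right
          refine ⟨i, ⟨sig.symm i, ?_, by simp⟩, rfl⟩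
          intro hi
          exact h2 ⟨sig.symm i, hi, by simp⟩
      · rintro (h1 | ⟨_, ⟨j, hj, rfl⟩, rfl⟩)
        · refine ⟨Or.inl h1, ?_⟩
          rintro ⟨j, _, rfl⟩
          exact hd' _ h1
        · refine ⟨Or.inr ⟨_, rfl⟩, ?_⟩
          rintro ⟨k, hk, hkj⟩
          have := sig.injective (ψ.injective hkj)
          exact hj (this ▸ hk)
    have hQc : ((Qᶜ).map sig.toEmbedding).card = 4 := by
      rw [Finset.card_map, Finset.card_compl, Fintype.card_fin, hQ]
    have h1 := hpat _ hQc
    rw [← patt_sig Q (Finset.mem_powersetCard.mpr ⟨Finset.subset_univ _, hQ⟩), ← h1]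
    change loc Y2 ψ2 Q ∈ NB (n - r) (du B) ↔ loc Y' ψ ((Qᶜ).map sig.toEmbedding) ∈ NB r B
    rw [mem_NB, mem_NB, mem_du, ← hcomp, Dual_card hr]

private theorem Dual_sub {r : ℕ} (hr : r ≤ n) : n - (n - r) = r := by omega

private theorem Dual_back {r : ℕ} (hr : r ≤ n) {B : Finset (Finset (Fin n))}
    (hB : IsMat n (n - r) B) : IsMat n r (du B) := by
  have h := du_isMat (Nat.sub_le n r) hB
  rwa [Dual_sub hr] at h

theorem card_Mats_dual {r : ℕ} (hr : r ≤ n) : (Mats n (n - r)).card = (Mats n r).card := by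
  apply Finset.card_nbij' du du
  · intro B hB
    rw [Finset.mem_coe, mem_Mats] at hB ⊢
    exact Dual_back hr hB
  · intro B hB
    rw [Finset.mem_coe, mem_Mats] at hB ⊢
    exact du_isMat hr hB
  · intro B _
    exact du_du B
  · intro B _
    exact du_du B

theorem card_Fr_dual {r : ℕ} (hr : r ≤ n) : (Fr n (n - r)).card = (Fr n r).card := by
  apply Finset.card_nbij' du du
  · intro B hB
    rw [Finset.mem_coe, mem_Fr] at hB ⊢
    refine ⟨Dual_back hr hB.1, fun h => hB.2 ?_⟩
    have h1 := hasPat_du hr (Dual_back hr hB.1) h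
    rwa [du_du] at h1
  · intro B hB
    rw [Finset.mem_coe, mem_Fr] at hB ⊢
    refine ⟨du_isMat hr hB.1, fun h => hB.2 ?_⟩
    have h1 := hasPat_du (Nat.sub_le n r) (du_isMat hr hB.1) h
    rwa [du_du, Dual_sub hr] at h1
  · intro B _
    exact du_du B
  · intro B _
    exact du_du B

theorem card_Fix_dual {r : ℕ} (hr : r ≤ n) (s : Equiv.Perm (Fin n)) :
    (Fix n (n - r) s).card = (Fix n r s).card := by
  apply Finset.card_nbij' du du
  · intro B hB
    rw [Finset.mem_coe, mem_Fix] at hB ⊢
    exact ⟨Dual_back hr hB.1, by rw [pim_du, hB.2]⟩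
  · intro B hB
    rw [Finset.mem_coe, mem_Fix] at hB ⊢
    exact ⟨du_isMat hr hB.1, by rw [pim_du, hB.2]⟩
  · intro B _
    exact du_du B
  · intro B _
    exact du_du B

end Pool.Agent.H97.VZ
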