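import Mathlib
import Pool.Agent.H13.VM.Defs

/-! MODULE Z/Num (about 150 lines, pure numbers).

`choose_noncentral`: for large `n`, every `r <= n` which is not central has
`n^3 C(n, r) <= 2^n`. If `2^n <= n^3 C(n,r)` fails this is clear. Otherwise `100 r < 49 n` or
`51 n < 100 r`. By `C(n, r) = C(n, n - r)` suppose `100 r < 49 n`. One term of the binomial theorem
for `(49 + 51)^n` is `C(n, r) 49^r 51^(n-r) <= 100^n`, and `49^r 51^(n-r)` decreases with `r`, so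
`(49^r 51^(n-r))^100 >= (49^49 51^51)^n`; hence `C(n, r)^100 (49^49 51^51)^n <= (100^100)^n` and
`(100^100 / (49^49 51^51))` is less than `2^100 * (99/100)` (norm_num; the ratio
`50^100 / (49^49 51^51)` is about `0.9802`), so `C(n, r)^100 <= (2^100 * 99/100)^n`, and
`n^300 (99/100)^n -> 0`.
`extreme_num`: adapt the lemma `extreme_num` of `Pool/Agent/H8/VM/H4c_Extreme.lean`
(there `c^5 <= 4^n`): `n! <= 2^(n^2)`, `c <= 2^n / n^3 <= P/2` for `P = 2^n/(n(n+1))`,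
`n^2 + n + K <= P/2`. -/

open scoped BigOperators
open Filter

namespace Pool.Agent.H97.VZ

open Pool.Agent.H13.VM

private lemma Num_term (n r : ℕ) (h : r ≤ n) :
    49 ^ r * 51 ^ (n - r) * n.choose r ≤ 100 ^ n := by
  have h1 : (49 + 51 : ℕ) ^ n = ∑ m ∈ Finset.range (n + 1), 49 ^ m * 51 ^ (n - m) * n.choose m :=
    add_pow 49 51 n
  have h2 : 49 ^ r * 51 ^ (n - r) * n.choose r ≤
      ∑ m ∈ Finset.range (n + 1), 49 ^ m * 51 ^ (n - m) * n.choose m :=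
    Finset.single_le_sum (f := fun m => 49 ^ m * 51 ^ (n - m) * n.choose m)
      (fun _ _ => Nat.zero_le _) (Finset.mem_range.mpr (by omega))
  rw [← h1] at h2
  exact h2

private lemma Num_pow (n r : ℕ) (h : 100 * r ≤ 49 * n) :
    (49 ^ 49 * 51 ^ 51) ^ n ≤ (49 ^ r * 51 ^ (n - r)) ^ 100 := by
  obtain ⟨s, hs⟩ := Nat.exists_eq_add_of_le h
  have h1 : (n - r) * 100 = 51 * n + s := by omega
  rw [mul_pow, mul_pow, ← pow_mul, ← pow_mul, ← pow_mul, ← pow_mul, h1, hs, mul_comm r 100,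
    pow_add, pow_add]
  calc 49 ^ (100 * r) * 49 ^ s * 51 ^ (51 * n) = 49 ^ (100 * r) * (51 ^ (51 * n) * 49 ^ s) := by
        ring
    _ ≤ 49 ^ (100 * r) * (51 ^ (51 * n) * 51 ^ s) := by
        gcongr
        norm_num

private lemma Num_small (n r : ℕ) (h : 100 * r ≤ 49 * n) :
    n.choose r ^ 100 * 100 ^ n ≤ (2 ^ n) ^ 100 * 99 ^ n := by
  have h1 := Num_term n r (by omega)
  have h2 := Num_pow n r h
  have h3 : (49 ^ 49 * 51 ^ 51) ^ n * n.choose r ^ 100 ≤ (100 ^ 100) ^ n := by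
    calc (49 ^ 49 * 51 ^ 51) ^ n * n.choose r ^ 100
        ≤ (49 ^ r * 51 ^ (n - r)) ^ 100 * n.choose r ^ 100 := Nat.mul_le_mul_right _ h2
      _ = (49 ^ r * 51 ^ (n - r) * n.choose r) ^ 100 := (mul_pow _ _ _).symm
      _ ≤ (100 ^ n) ^ 100 := Nat.pow_le_pow_left h1 100
      _ = (100 ^ 100) ^ n := by rw [← pow_mul, ← pow_mul, mul_comm]
  have h4 : (100 ^ 100 * 100 : ℕ) ≤ 2 ^ 100 * 99 * (49 ^ 49 * 51 ^ 51) := by norm_num
  have h5 : (100 ^ 100 * 100 : ℕ) ^ n ≤ (2 ^ 100 * 99 * (49 ^ 49 * 51 ^ 51)) ^ n :=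
    Nat.pow_le_pow_left h4 n
  have h6 : (49 ^ 49 * 51 ^ 51) ^ n * (n.choose r ^ 100 * 100 ^ n) ≤
      (49 ^ 49 * 51 ^ 51) ^ n * ((2 ^ n) ^ 100 * 99 ^ n) := by
    calc (49 ^ 49 * 51 ^ 51) ^ n * (n.choose r ^ 100 * 100 ^ n)
        = (49 ^ 49 * 51 ^ 51) ^ n * n.choose r ^ 100 * 100 ^ n := by ring
      _ ≤ (100 ^ 100) ^ n * 100 ^ n := Nat.mul_le_mul_right _ h3
      _ = (100 ^ 100 * 100) ^ n := by rw [mul_pow]
      _ ≤ (2 ^ 100 * 99 * (49 ^ 49 * 51 ^ 51)) ^ n := h5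
      _ = (49 ^ 49 * 51 ^ 51) ^ n * ((2 ^ 100) ^ n * 99 ^ n) := by rw [mul_pow, mul_pow]; ring
      _ = (49 ^ 49 * 51 ^ 51) ^ n * ((2 ^ n) ^ 100 * 99 ^ n) := by
          rw [← pow_mul 2 100 n, mul_comm 100 n, pow_mul]
  exact Nat.le_of_mul_le_mul_left h6 (by positivity)

private lemma Num_final {n r : ℕ} (hn : (n : ℝ) ^ 300 / (100 / 99 : ℝ) ^ n < 1)
    (h : 100 * r ≤ 49 * n) : n ^ 3 * n.choose r ≤ 2 ^ n := by
  have h1 := Num_small n r h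
  have h2 : (n : ℝ) ^ 300 * 99 ^ n ≤ 100 ^ n := by
    rw [div_lt_one (by positivity), div_pow, lt_div_iff₀ (by positivity)] at hn
    exact hn.le
  have h3 : n ^ 300 * 99 ^ n ≤ 100 ^ n := by exact_mod_cast h2
  have h4 : (n ^ 3 * n.choose r) ^ 100 * 99 ^ n ≤ (2 ^ n) ^ 100 * 99 ^ n := by
    calc (n ^ 3 * n.choose r) ^ 100 * 99 ^ n = n.choose r ^ 100 * (n ^ 300 * 99 ^ n) := by
          rw [mul_pow, ← pow_mul]; ring
      _ ≤ n.choose r ^ 100 * 100 ^ n := Nat.mul_le_mul_left _ h3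
      _ ≤ (2 ^ n) ^ 100 * 99 ^ n := h1
  have h5 := Nat.le_of_mul_le_mul_right h4 (by positivity)
  exact (Nat.pow_le_pow_iff_left (by norm_num)).1 h5

theorem choose_noncentral : ∀ᶠ n : ℕ in atTop, ∀ r : ℕ, r ≤ n → ¬ Cen n r →
    n ^ 3 * n.choose r ≤ 2 ^ n := by
  have e1 : ∀ᶠ n : ℕ in atTop, ((n : ℝ) ^ 300) / (100 / 99 : ℝ) ^ n < 1 :=
    (tendsto_pow_const_div_const_pow_of_one_lt 300 (by norm_num : (1 : ℝ) < 100 / 99)).eventually
      (gt_mem_nhds (by norm_num))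
  filter_upwards [e1] with n hn r hr hc
  by_cases h0 : 2 ^ n ≤ n ^ 3 * n.choose r
  · by_cases h1 : 49 * n ≤ 100 * r
    · have h2 : ¬ 100 * r ≤ 51 * n := fun h => hc ⟨h0, h1, h⟩
      rw [← Nat.choose_symm hr]
      exact Num_final hn (by omega)
    · exact Num_final hn (by omega)
  · omega

theorem extreme_num (δ : ℝ) (hδ : 0 < δ) : ∀ᶠ n : ℕ in atTop, ∀ c : ℕ, n ^ 3 * c ≤ 2 ^ n →
    (n.factorial : ℝ) * (((n : ℝ) + 1) * 2 ^ c) ≤
      δ * Real.exp ((2 : ℝ) ^ n / (n * (n + 1)) * Real.log 2) := by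
  obtain ⟨K, hK⟩ : ∃ K : ℕ, (1 : ℝ) / 2 ^ K ≤ δ := by
    obtain ⟨K, hK⟩ := exists_pow_lt_of_lt_one hδ (by norm_num : (1 / 2 : ℝ) < 1)
    refine ⟨K, ?_⟩
    rw [one_div, ← inv_pow, ← one_div]
    exact hK.le
  have e2 : ∀ᶠ n : ℕ in atTop, ((n : ℝ) ^ 4) / (2 : ℝ) ^ n < 1 / (4 * (K + 3)) :=
    (tendsto_pow_const_div_const_pow_of_one_lt 4 (by norm_num : (1 : ℝ) < 2)).eventually
      (gt_mem_nhds (by positivity))
  filter_upwards [e2, eventually_ge_atTop 3] with n h2 hn c hc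
  have hn' : (3 : ℝ) ≤ n := by exact_mod_cast hn
  set P : ℝ := (2 : ℝ) ^ n / (n * (n + 1)) with hP
  have hden : (0 : ℝ) < n * (n + 1) := by positivity
  -- `c ≤ P / 2`
  have hc1 : (c : ℝ) ≤ P / 2 := by
    have hc' : (n : ℝ) ^ 3 * c ≤ 2 ^ n := by exact_mod_cast hc
    rw [hP, div_div, le_div_iff₀ (by positivity)]
    have h3 : (n : ℝ) * (n + 1) * 2 ≤ n ^ 3 := by nlinarith
    calc (c : ℝ) * (n * (n + 1) * 2) ≤ c * n ^ 3 := by gcongr
      _ = n ^ 3 * c := by ring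
      _ ≤ 2 ^ n := hc'
  -- `n ^ 2 + n + K ≤ P / 2`
  have hc2 : (n : ℝ) ^ 2 + n + K ≤ P / 2 := by
    rw [hP, div_div, le_div_iff₀ (by positivity)]
    rw [div_lt_iff₀ (by positivity), div_mul_eq_mul_div, one_mul, lt_div_iff₀ (by positivity)] at h2
    have hK0 : (0 : ℝ) ≤ K := Nat.cast_nonneg K
    have h5 : (1 : ℝ) ≤ (n : ℝ) ^ 2 := by nlinarith
    have h6 : (K : ℝ) ≤ K * (n : ℝ) ^ 2 := by nlinarith
    have h3 : (n : ℝ) ^ 2 + n + K ≤ (K + 3) * n ^ 2 := by nlinarith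
    have h4 : (n : ℝ) * (n + 1) * 2 ≤ 4 * n ^ 2 := by nlinarith
    calc ((n : ℝ) ^ 2 + n + K) * (n * (n + 1) * 2) ≤ ((K + 3) * n ^ 2) * (4 * n ^ 2) := by
          gcongr
      _ = (n : ℝ) ^ 4 * (4 * (K + 3)) := by ring
      _ ≤ 2 ^ n := h2.le
  -- the left side is at most a power of two
  have hf : (n.factorial : ℝ) ≤ 2 ^ (n ^ 2) := by
    have h3 : n.factorial ≤ n ^ n := Nat.factorial_le_pow n
    have h4 : n ^ n ≤ (2 ^ n) ^ n := Nat.pow_le_pow_left (Nat.lt_two_pow_self).le n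
    have h5 : n.factorial ≤ 2 ^ (n ^ 2) := by
      rw [pow_two, pow_mul]
      exact h3.trans h4
    exact_mod_cast h5
  have hg : ((n : ℝ) + 1) ≤ 2 ^ n := by
    have : n + 1 ≤ 2 ^ n := Nat.lt_two_pow_self
    exact_mod_cast this
  have hexp : Real.exp (P * Real.log 2) = (2 : ℝ) ^ P := by
    rw [Real.rpow_def_of_pos (by norm_num), mul_comm]
  rw [hexp]
  calc (n.factorial : ℝ) * (((n : ℝ) + 1) * 2 ^ c) ≤ 2 ^ (n ^ 2) * (2 ^ n * 2 ^ c) := by gcongr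
    _ = (1 / 2 ^ K) * (2 : ℝ) ^ (n ^ 2 + n + K + c) := by
      rw [pow_add, pow_add, pow_add]
      field_simp
    _ ≤ δ * (2 : ℝ) ^ P := by
      refine mul_le_mul hK ?_ (by positivity) hδ.le
      rw [← Real.rpow_natCast]
      refine Real.rpow_le_rpow_of_exponent_le (by norm_num) ?_
      push_cast
      linarith

end Pool.Agent.H97.VZ
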