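import Pool.Agent.H97.VZ.Split
import Pool.Agent.H97.VZ.Num
import Pool.Agent.H8.VM.A3a_Lower

/-! MODULE Z/Extreme. The ranks which are not central do not matter, not even after
multiplication with `n!`. Adapted from `extreme_small` of `Pool/Agent/H8/VM/H4c_Extreme.lean`.

Lower bound: `stables_lower` for `r = n/2` gives `2^(C(n, n/2)/n) <= |stables n (n/2)|`; a stable
family `I` gives the sparse paving matroid `Pool.Agent.H28.SPMatroid.mk`, so
`|stables n (n/2)| = Nat.card {M // SP (n/2) M and True} <= Nat.card {M // All M}`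
(`card_SP_filter`; `SP r M` implies `M.E = univ`), and `C(n, n/2) >= 2^n/(n+1)`.
Upper bound: `card_mt_le` and `choose_noncentral`, `extreme_num` for the largest binomial
coefficient. -/

open scoped BigOperators
open Filter

namespace Pool.Agent.H97.VZ

open Pool.Agent.H28.Johnson Pool.Agent.H28.KW Pool.Agent.H28.Windows Pool.Agent.H28.SPMatroid
  Pool.Agent.H28.V8 Pool.Agent.H8.VM Pool.Agent.H13.VM

theorem all_lower : ∀ᶠ n : ℕ in atTop,
    Real.exp ((2 : ℝ) ^ n / (n * (n + 1)) * Real.log 2) ≤
      (Nat.card {M : Matroid (Fin n) // All M} : ℝ) := by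
  filter_upwards [eventually_ge_atTop 2] with n hn
  have h1 := stables_lower (n := n) (r := n / 2) (by omega) (by omega)
  have h2 : Nat.card {M : Matroid (Fin n) // SP (n / 2) M ∧ True} =
      (stables n (n / 2)).card := by
    have := card_SP_filter (n := n) (r := n / 2) (by omega) (by omega) (fun _ => True)
    rw [this, Finset.filter_true]
  have h3 : Nat.card {M : Matroid (Fin n) // SP (n / 2) M ∧ True} ≤
      Nat.card {M : Matroid (Fin n) // All M} :=
    Nat.card_le_card_of_injective
      (fun M : {M : Matroid (Fin n) // SP (n / 2) M ∧ True} =>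
        (⟨M.1, M.2.1.1⟩ : {M : Matroid (Fin n) // All M}))
      (by
        intro M M' h
        apply Subtype.ext
        have := congrArg Subtype.val h
        exact this)
  have hpos : (0 : ℝ) < ((stables n (n / 2)).card : ℝ) := by
    have : (stables n (n / 2)).Nonempty := ⟨∅, by rw [mem_stables]; simp [Indep]⟩
    exact_mod_cast Finset.card_pos.mpr this
  have h5 : (2 : ℝ) ^ n / (n * (n + 1)) ≤ (n.choose (n / 2) : ℝ) / n := by
    have h6 : 2 ^ n ≤ (n + 1) * n.choose (n / 2) := by
      rw [← Nat.sum_range_choose]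
      calc ∑ m ∈ Finset.range (n + 1), n.choose m
          ≤ ∑ m ∈ Finset.range (n + 1), n.choose (n / 2) :=
            Finset.sum_le_sum fun m _ => Nat.choose_le_middle m n
        _ = (n + 1) * n.choose (n / 2) := by simp
    have h7 : (2 : ℝ) ^ n ≤ (n + 1) * n.choose (n / 2) := by exact_mod_cast h6
    have hn0 : (0 : ℝ) < n := by positivity
    rw [div_le_div_iff₀ (by positivity) hn0]
    nlinarith
  calc Real.exp ((2 : ℝ) ^ n / (n * (n + 1)) * Real.log 2)
      ≤ Real.exp ((n.choose (n / 2) : ℝ) / n * Real.log 2) := by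
        apply Real.exp_le_exp.mpr
        exact mul_le_mul_of_nonneg_right h5 (Real.log_nonneg (by norm_num))
    _ ≤ Real.exp (Real.log (stables n (n / 2)).card) := Real.exp_le_exp.mpr h1
    _ = (stables n (n / 2)).card := Real.exp_log hpos
    _ ≤ (Nat.card {M : Matroid (Fin n) // All M} : ℝ) := by
        rw [← h2]; exact_mod_cast h3

open Classical in
theorem extreme_small (δ : ℝ) (hδ : 0 < δ) : ∀ᶠ n : ℕ in atTop,
    (n.factorial : ℝ) * ((∑ r ∈ (Finset.range (n + 1)).filter (fun r => ¬ Cen n r),
      Nat.card {M : Matroid (Fin n) // Mt r M} : ℕ) : ℝ) ≤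
      δ * (Nat.card {M : Matroid (Fin n) // All M} : ℝ) := by
  filter_upwards [extreme_num δ hδ, all_lower, choose_noncentral, eventually_ge_atTop 2] with
    n hnum hlow hcho hn
  set F := (Finset.range (n + 1)).filter (fun r => ¬ Cen n r) with hF
  rcases F.eq_empty_or_nonempty with hE | hNE
  · rw [hE]
    simp only [Finset.sum_empty, Nat.cast_zero, mul_zero]
    positivity
  obtain ⟨r0, hr0, hmax⟩ := Finset.exists_max_image F (fun r => n.choose r) hNE
  have hr0' := Finset.mem_filter.mp hr0
  have hc := hcho r0 (by have := Finset.mem_range.mp hr0'.1; omega) hr0'.2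
  have hsum : (∑ r ∈ F, Nat.card {M : Matroid (Fin n) // Mt r M}) ≤
      (n + 1) * 2 ^ (n.choose r0) := by
    calc (∑ r ∈ F, Nat.card {M : Matroid (Fin n) // Mt r M})
        ≤ ∑ r ∈ F, 2 ^ (n.choose r0) := Finset.sum_le_sum fun r hr =>
          card_mt_le.trans (Nat.pow_le_pow_right (by norm_num) (hmax r hr))
      _ = F.card * 2 ^ (n.choose r0) := by simp
      _ ≤ (n + 1) * 2 ^ (n.choose r0) := by
          apply Nat.mul_le_mul_right
          calc F.card ≤ (Finset.range (n + 1)).card := Finset.card_filter_le _ _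
            _ = n + 1 := Finset.card_range _
  have hsum' : ((∑ r ∈ F, Nat.card {M : Matroid (Fin n) // Mt r M} : ℕ) : ℝ) ≤
      ((n : ℝ) + 1) * 2 ^ (n.choose r0) := by exact_mod_cast hsum
  calc (n.factorial : ℝ) * ((∑ r ∈ F, Nat.card {M : Matroid (Fin n) // Mt r M} : ℕ) : ℝ)
      ≤ (n.factorial : ℝ) * (((n : ℝ) + 1) * 2 ^ (n.choose r0)) := by gcongr
    _ ≤ δ * Real.exp ((2 : ℝ) ^ n / (n * (n + 1)) * Real.log 2) := hnum _ hc
    _ ≤ δ * (Nat.card {M : Matroid (Fin n) // All M} : ℝ) := by gcongr

end Pool.Agent.H97.VZ
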