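import Pool.Agent.H97.VZ.Bridge
import Pool.Agent.H8.VM.H1a_Basic

/-! MODULE Z/FixBr (about 60 lines). For `Mt r M`: `Iso s M M` implies that `bs r M` is fixed by `s`
(`M.Indep X <-> M.Indep (s '' X)`; the image of `S : Finset` under `s` has the same cardinality;
`Finset.coe_image`). -/

open scoped BigOperators

namespace Pool.Agent.H97.VZ

open Pool.Agent.H28.Johnson Pool.Agent.H28.V8 Pool.Agent.H8.VM Pool.Agent.H13.VM

variable {n : ℕ}

lemma pim_bs {r : ℕ} {s : Equiv.Perm (Fin n)} {M : Matroid (Fin n)} (h : Iso s M M) :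
    pim s (bs r M) = bs r M := by
  ext Y
  rw [mem_pim]
  constructor
  · rintro ⟨X, hX, rfl⟩
    rw [mem_bs] at hX ⊢
    refine ⟨by rw [Finset.card_image_of_injective _ s.injective, hX.1], ?_⟩
    rw [Finset.coe_image]
    exact (h _).mp hX.2
  · intro hY
    rw [mem_bs] at hY
    have himg : (Y.image s.symm).image s = Y := by
      rw [Finset.image_image]
      simp
    refine ⟨Y.image s.symm, ?_, himg⟩
    rw [mem_bs]
    refine ⟨by rw [Finset.card_image_of_injective _ s.symm.injective, hY.1], ?_⟩
    rw [h, ← Finset.coe_image, himg]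
    exact hY.2

theorem card_iso_le {r : ℕ} (s : Equiv.Perm (Fin n)) :
    Nat.card {M : Matroid (Fin n) // Mt r M ∧ Iso s M M} ≤ (Fix n r s).card := by
  classical
  have h1 := card_filter_bs (n := n) r (fun B => pim s B = B)
  have h2 : Nat.card {M : Matroid (Fin n) // Mt r M ∧ Iso s M M} ≤
      Nat.card {M : Matroid (Fin n) // Mt r M ∧ pim s (bs r M) = bs r M} := by
    apply Nat.card_le_card_of_injective
      (fun M : {M : Matroid (Fin n) // Mt r M ∧ Iso s M M} =>
        (⟨M.1, M.2.1, pim_bs M.2.2⟩ :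
          {M : Matroid (Fin n) // Mt r M ∧ pim s (bs r M) = bs r M}))
    intro A B h
    simp only [Subtype.mk.injEq] at h
    exact Subtype.ext h
  rw [h1] at h2
  refine h2.trans (le_of_eq ?_)
  rw [Fix]
  congr!

theorem card_mt {r : ℕ} : Nat.card {M : Matroid (Fin n) // Mt r M} = (Mats n r).card := by
  classical
  have h1 := card_filter_bs (n := n) r (fun _ => True)
  simpa using h1

end Pool.Agent.H97.VZ
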