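import Pool.Agent.H97.VZ.Bridge

/-! MODULE Z/Pat (about 120 lines). A cell showing exactly the Vamos pattern in the nonbases gives a
Vamos minor (compare `Pool.Agent.H28.V8.hasV8_of_loc`). -/

open scoped BigOperators

namespace Pool.Agent.H97.VZ

open Pool.Agent.H28.Johnson Pool.Agent.H28.V8 Pool.Agent.H8.VM Pool.Agent.H13.VM

variable {n : ℕ}

set_option maxRecDepth 100000 in
/-- every set with at most three elements is contained in a 4-set outside the pattern -/
lemma small_in_base : ∀ k ∈ Finset.range 4, ∀ Q ∈ (Finset.univ : Finset (Fin 8)).powersetCard k,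
    ∃ Q' ∈ (Finset.univ : Finset (Fin 8)).powersetCard 4, Q ⊆ Q' ∧ Q' ∉ patt := by
  decide

theorem hasV8_of_hasPat {r : ℕ} {M : Matroid (Fin n)} (hM : Mt r M)
    (h : HasPat r (NB r (bs r M))) : HasV8 M := by
  classical
  obtain ⟨c, hc, hp⟩ := h
  rw [mem_cells] at hc
  obtain ⟨Y', ψ⟩ := c
  obtain ⟨hY'c, hd'⟩ := hc
  simp only at hY'c hd'
  have hE : M.E = Set.univ := hM.1
  -- membership in terms of independence
  have hmem : ∀ Q : Finset (Fin 8), Q.card = 4 →
      (M.Indep ((loc Y' ψ Q : Finset (Fin n)) : Set (Fin n)) ↔ Q ∉ patt) := by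
    intro Q hQ
    have h1 := hp Q hQ
    have h2 : (loc Y' ψ Q).card = r := by rw [loc_card hd', hQ]; exact hY'c
    have h3 : Cell.at (Y', ψ) Q = loc Y' ψ Q := rfl
    rw [h3, mem_NB, mem_bs] at h1
    constructor
    · intro hI hQp
      exact ((h1.mpr hQp).2) ⟨h2, hI⟩
    · intro hQp
      by_contra hI
      exact hQp (h1.mp ⟨h2, fun h => hI h.2⟩)
  have hind3 : ∀ Q : Finset (Fin 8), Q.card ≤ 3 →
      M.Indep ((loc Y' ψ Q : Finset (Fin n)) : Set (Fin n)) := by
    intro Q hQ
    obtain ⟨Q', hQ', hsub, hQp⟩ := small_in_base Q.card (Finset.mem_range.mpr (by omega)) Q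
      (Finset.mem_powersetCard.mpr ⟨Finset.subset_univ _, rfl⟩)
    have h1 := (hmem Q' (Finset.mem_powersetCard.mp hQ').2).mpr hQp
    refine h1.subset ?_
    rw [Finset.coe_subset, loc, loc]
    exact Finset.union_subset_union_right (Finset.map_subset_map.mpr hsub)
  have hYI : M.Indep (Y' : Set (Fin n)) := by
    have := hind3 ∅ (by simp)
    rwa [loc, Finset.map_empty, Finset.union_empty] at this
  have hdisj : ∀ X : Finset (Fin 8), Disjoint (ψ '' (X : Set (Fin 8))) (Y' : Set (Fin n)) := by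
    intro X
    rw [Set.disjoint_left]
    rintro _ ⟨i, _, rfl⟩ hi
    exact hd' i (by exact_mod_cast hi)
  refine ⟨(Y' : Set (Fin n)), ((Y' : Set (Fin n)) ∪ Set.range ψ)ᶜ, ψ, ψ.injective, ?_, ?_⟩
  · rw [Matroid.delete_ground, Matroid.contract_ground, hE]
    ext x
    simp only [Set.mem_sdiff, Set.mem_univ, true_and, Set.mem_compl_iff, Set.mem_union, not_not]
    constructor
    · rintro ⟨i, rfl⟩
      exact ⟨fun h => hd' i (by exact_mod_cast h), Or.inr ⟨i, rfl⟩⟩
    · rintro ⟨h1, h2 | h2⟩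
      · exact absurd h2 h1
      · exact h2
  · intro I
    have hset : (ψ '' (I : Set (Fin 8))) ∪ (Y' : Set (Fin n)) =
        ((loc Y' ψ I : Finset (Fin n)) : Set (Fin n)) := by
      rw [loc, Finset.coe_union, Finset.coe_map, Set.union_comm]
    rw [Matroid.delete_indep_iff, hYI.contract_indep_iff, hset]
    have hdis1 := hdisj I
    have hdis2 : Disjoint (ψ '' (I : Set (Fin 8))) ((Y' : Set (Fin n)) ∪ Set.range ψ)ᶜ := by
      rw [Set.disjoint_left]
      rintro _ ⟨i, _, rfl⟩ hi
      exact hi (Or.inr ⟨i, rfl⟩)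
    simp only [hdis1, hdis2, true_and, and_true]
    have h6 : I ∉ patt ↔ (I ≠ ({0, 1, 2, 3} : Finset (Fin 8)) ∧
            I ≠ ({0, 1, 4, 5} : Finset (Fin 8)) ∧
            I ≠ ({0, 1, 6, 7} : Finset (Fin 8)) ∧
            I ≠ ({2, 3, 4, 5} : Finset (Fin 8)) ∧
            I ≠ ({2, 3, 6, 7} : Finset (Fin 8))) := by
      simp only [patt, Finset.mem_insert, Finset.mem_singleton, not_or, ne_eq]
    rw [← h6]
    rcases lt_trichotomy I.card 4 with hlt | heq | hgt
    · have h3 : I.card ≤ 3 := by omega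
      exact ⟨fun _ => Or.inl h3, fun _ => hind3 I h3⟩
    · constructor
      · intro hI
        exact Or.inr ⟨heq, (hmem I heq).mp hI⟩
      · rintro (h1 | h1)
        · omega
        · exact (hmem I heq).mpr h1.2
    · constructor
      · intro hI
        exfalso
        have h1 := hI.encard_le_eRank
        rw [hM.2, Set.encard_coe_eq_coe_finsetCard, loc_card hd'] at h1
        have : Y'.card + I.card ≤ r := by exact_mod_cast h1
        omega
      · rintro (h1 | h1) <;> omega

end Pool.Agent.H97.VZ
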