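import Pool.Agent.H97.VZ.Burn
import Pool.Agent.H8.VM.H1c_V8

/-! MODULE Z/Ratio (about 120 lines). The unlabelled ratio from Burnside.

Let `t = Nat.card {M // All M}`, `T` the number of all classes, `A` the number of classes of matroids
with a Vamos minor, `D` the number of classes of matroids without Vamos minor (`HasV8` is invariant
under isomorphism: `iso_hasV8`, so the two kinds of classes are complementary:
`T = A + D`). `burnside` for `Q = True`: `T n! >= t` (the term of the identity, `iso_refl`).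
`burnside` for `Q = not HasV8`: `D n! = sum over s` of the numbers of fixed matroids without Vamos
minor `<= Nat.card {M // All M and not HasV8 M} + sum over s <> 1 of Nat.card {M // All M and
Iso s M M} <= 2 d t`. So `D <= 2 d T`. -/

open scoped BigOperators

namespace Pool.Agent.H97.VZ

open Pool.Agent.H28.V8 Pool.Agent.H8.VM

variable {n : ℕ}

private theorem Ratio_card_le {P Q : Matroid (Fin n) → Prop} (h : ∀ M, P M → Q M) :
    Nat.card {M : Matroid (Fin n) // P M} ≤ Nat.card {M : Matroid (Fin n) // Q M} := by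
  exact Nat.card_le_card_of_injective (fun x => ⟨x.1, h x.1 x.2⟩) fun x y hxy =>
    Subtype.ext (congrArg (fun z => z.1) hxy)

theorem class_ratio (d : ℝ) (hd : 0 ≤ d)
    (hb : (Nat.card {M : Matroid (Fin n) // All M ∧ ¬ HasV8 M} : ℝ) ≤
      d * (Nat.card {M : Matroid (Fin n) // All M} : ℝ))
    (hs : (∑ s ∈ (Finset.univ : Finset (Equiv.Perm (Fin n))).erase 1,
      (Nat.card {M : Matroid (Fin n) // All M ∧ Iso s M M} : ℝ)) ≤
      d * (Nat.card {M : Matroid (Fin n) // All M} : ℝ)) :
    1 - 2 * d ≤ (Nat.card {S : Set (Matroid (Fin n)) // ∃ M : Matroid (Fin n),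
          All M ∧ HasV8 M ∧ S = isoClass M} : ℝ) /
        (Nat.card {S : Set (Matroid (Fin n)) // ∃ M : Matroid (Fin n),
          All M ∧ S = isoClass M} : ℝ) ∧
      (Nat.card {S : Set (Matroid (Fin n)) // ∃ M : Matroid (Fin n),
          All M ∧ HasV8 M ∧ S = isoClass M} : ℝ) /
        (Nat.card {S : Set (Matroid (Fin n)) // ∃ M : Matroid (Fin n),
          All M ∧ S = isoClass M} : ℝ) ≤ 1 := by
  classical
  set t := Nat.card {M : Matroid (Fin n) // All M} with ht
  set A := Nat.card {S : Set (Matroid (Fin n)) // ∃ M : Matroid (Fin n),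
          All M ∧ HasV8 M ∧ S = isoClass M} with hA
  set T := Nat.card {S : Set (Matroid (Fin n)) // ∃ M : Matroid (Fin n),
          All M ∧ S = isoClass M} with hT
  set D := Nat.card {S : Set (Matroid (Fin n)) // ∃ M : Matroid (Fin n),
          M.E = Set.univ ∧ ¬ HasV8 M ∧ S = isoClass M} with hD
  -- `T ≤ A + D`
  have hTAD : T ≤ A + D := by
    have hsub : {S : Set (Matroid (Fin n)) | ∃ M : Matroid (Fin n), All M ∧ S = isoClass M} ⊆
        {S | ∃ M : Matroid (Fin n), All M ∧ HasV8 M ∧ S = isoClass M} ∪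
        {S | ∃ M : Matroid (Fin n), M.E = Set.univ ∧ ¬ HasV8 M ∧ S = isoClass M} := by
      rintro S ⟨M, hM, rfl⟩
      by_cases h : HasV8 M
      · exact Or.inl ⟨M, hM, h, rfl⟩
      · exact Or.inr ⟨M, hM, h, rfl⟩
    have h1 := Set.ncard_le_ncard hsub (Set.toFinite _)
    have h2 := Set.ncard_union_le
      {S : Set (Matroid (Fin n)) | ∃ M : Matroid (Fin n), All M ∧ HasV8 M ∧ S = isoClass M}
      {S | ∃ M : Matroid (Fin n), M.E = Set.univ ∧ ¬ HasV8 M ∧ S = isoClass M}
    exact h1.trans h2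
  have hAT : A ≤ T := by
    refine Nat.card_le_card_of_injective
      (fun x => ⟨x.1, by obtain ⟨M, h1, _, h3⟩ := x.2; exact ⟨M, h1, h3⟩⟩) ?_
    intro x y hxy
    exact Subtype.ext (congrArg (fun z => z.1) hxy)
  -- Burnside for all matroids
  have hb1 := burnside (n := n) (fun _ => True) (fun _ _ _ _ _ _ _ => trivial)
  have hT' : Nat.card {S : Set (Matroid (Fin n)) // ∃ M : Matroid (Fin n),
      M.E = Set.univ ∧ True ∧ S = isoClass M} = T := by
    refine Nat.card_congr (Equiv.subtypeEquivRight fun S => ?_)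
    simp only [true_and]
    rfl
  rw [hT'] at hb1
  have hTt : t ≤ T * n.factorial := by
    rw [hb1]
    refine le_trans ?_ (Finset.single_le_sum (f := fun s : Equiv.Perm (Fin n) =>
      Nat.card {M : Matroid (Fin n) // (M.E = Set.univ ∧ True) ∧ Iso s M M})
      (fun _ _ => Nat.zero_le _) (Finset.mem_univ 1))
    exact Ratio_card_le fun M hM => ⟨⟨hM, trivial⟩, iso_refl M⟩
  -- Burnside for the matroids without Vamos minor
  have hb2 := burnside (n := n) (fun M => ¬ HasV8 M) (fun e M M' hM hM' h hq hV =>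
    hq (iso_hasV8 hM' hM (iso_symm h) hV))
  have hDt : (D : ℝ) * n.factorial ≤ 2 * d * t := by
    have h1 : ((D * n.factorial : ℕ) : ℝ) = ∑ s : Equiv.Perm (Fin n),
        (Nat.card {M : Matroid (Fin n) // (M.E = Set.univ ∧ ¬ HasV8 M) ∧ Iso s M M} : ℝ) := by
      rw [hD, hb2]
      push_cast
      rfl
    rw [Nat.cast_mul] at h1
    rw [h1, ← Finset.add_sum_erase _ _ (Finset.mem_univ (1 : Equiv.Perm (Fin n)))]
    have h2 : (Nat.card {M : Matroid (Fin n) // (M.E = Set.univ ∧ ¬ HasV8 M) ∧ Iso 1 M M} : ℝ) ≤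
        (Nat.card {M : Matroid (Fin n) // All M ∧ ¬ HasV8 M} : ℝ) := by
      exact_mod_cast Ratio_card_le (P := fun M : Matroid (Fin n) =>
          (M.E = Set.univ ∧ ¬ HasV8 M) ∧ Iso 1 M M) (Q := fun M => All M ∧ ¬ HasV8 M)
        fun M hM => ⟨hM.1.1, hM.1.2⟩
    have h3 : ∑ s ∈ (Finset.univ : Finset (Equiv.Perm (Fin n))).erase 1,
        (Nat.card {M : Matroid (Fin n) // (M.E = Set.univ ∧ ¬ HasV8 M) ∧ Iso s M M} : ℝ) ≤
        ∑ s ∈ (Finset.univ : Finset (Equiv.Perm (Fin n))).erase 1,
          (Nat.card {M : Matroid (Fin n) // All M ∧ Iso s M M} : ℝ) := by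
      refine Finset.sum_le_sum fun s _ => ?_
      exact_mod_cast Ratio_card_le (P := fun M : Matroid (Fin n) =>
          (M.E = Set.univ ∧ ¬ HasV8 M) ∧ Iso s M M) (Q := fun M => All M ∧ Iso s M M)
        fun M hM => ⟨hM.1.1, hM.2⟩
    linarith
  have hfac : (0 : ℝ) < n.factorial := by exact_mod_cast Nat.factorial_pos n
  have hTt' : (t : ℝ) ≤ T * n.factorial := by exact_mod_cast hTt
  have hDT : (D : ℝ) ≤ 2 * d * T := by
    have h1 : (D : ℝ) * n.factorial ≤ (2 * d * T) * n.factorial := by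
      refine hDt.trans ?_
      have := mul_le_mul_of_nonneg_left hTt' (by linarith : 0 ≤ 2 * d)
      linarith
    exact le_of_mul_le_mul_right h1 hfac
  have hTpos : 0 < T := by
    have : Nonempty {S : Set (Matroid (Fin n)) // ∃ M : Matroid (Fin n),
          All M ∧ S = isoClass M} :=
      ⟨⟨_, Matroid.loopyOn Set.univ, rfl, rfl⟩⟩
    exact Nat.card_pos
  have hTpos' : (0 : ℝ) < T := by exact_mod_cast hTpos
  have h1 : (T : ℝ) ≤ A + D := by exact_mod_cast hTAD
  have h2 : (A : ℝ) ≤ T := by exact_mod_cast hAT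
  constructor
  · rw [le_div_iff₀ hTpos']
    nlinarith
  · rw [div_le_one hTpos']
    exact h2

end Pool.Agent.H97.VZ
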