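import Pool.Agent.H97.VZ.AllC
import Pool.Agent.H97.VZ.Pat
import Pool.Agent.H97.VZ.Extreme
import Pool.Agent.H97.VZ.FixBr
import Pool.Agent.H97.VZ.Ratio
import Pool.Agent.H8.VM.H2b_Lab

/-! # Part Z of `h13_vamos_paper.md`: the frozen statement from the rank-level theorems -/

open scoped BigOperators
open Filter

namespace Pool.Agent.H97.VZ

open Pool.Agent.H28.Johnson Pool.Agent.H28.V8 Pool.Agent.H8.VM Pool.Agent.H13.VM

/-- squeeze to the limit one -/
lemma tendsto_one {f : ℕ → ℝ} (h : ∀ δ : ℝ, 0 < δ → ∀ᶠ n : ℕ in atTop, 1 - δ ≤ f n ∧ f n ≤ 1) :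
    Tendsto f atTop (nhds 1) := by
  rw [Metric.tendsto_nhds]
  intro ε hε
  filter_upwards [h (ε / 2) (by positivity)] with n hn
  rw [Real.dist_eq, abs_lt]
  constructor <;> linarith [hn.1, hn.2]

lemma card_le_and {n : ℕ} (P Q : Matroid (Fin n) → Prop) :
    Nat.card {M : Matroid (Fin n) // P M ∧ Q M} ≤ Nat.card {M : Matroid (Fin n) // P M} := by
  apply Nat.card_le_card_of_injective
    (fun M : {M : Matroid (Fin n) // P M ∧ Q M} => (⟨M.1, M.2.1⟩ : {M : Matroid (Fin n) // P M}))
  intro A B h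
  simp only [Subtype.mk.injEq] at h
  exact Subtype.ext h

lemma card_total (n : ℕ) :
    Nat.card {M : Matroid (Fin n) // All M} =
      ∑ r ∈ Finset.range (n + 1), Nat.card {M : Matroid (Fin n) // Mt r M} := by
  have h := card_split (n := n) (fun _ => True)
  simpa using h

open Classical in
/-- summation over the ranks for one property -/
lemma sum_ranks {n : ℕ} (Q : Matroid (Fin n) → Prop) {δ : ℝ} (hδ : 0 ≤ δ)
    (hc : ∀ r : ℕ, Cen n r →
      (Nat.card {M : Matroid (Fin n) // Mt r M ∧ Q M} : ℝ) ≤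
        δ * (Nat.card {M : Matroid (Fin n) // Mt r M} : ℝ))
    (he : (n.factorial : ℝ) * ((∑ r ∈ (Finset.range (n + 1)).filter (fun r => ¬ Cen n r),
      Nat.card {M : Matroid (Fin n) // Mt r M} : ℕ) : ℝ) ≤
      δ * (Nat.card {M : Matroid (Fin n) // All M} : ℝ)) :
    (Nat.card {M : Matroid (Fin n) // All M ∧ Q M} : ℝ) ≤
      2 * δ * (Nat.card {M : Matroid (Fin n) // All M} : ℝ) := by
  have hf1 : (1 : ℝ) ≤ (n.factorial : ℝ) := by exact_mod_cast Nat.factorial_pos n
  rw [card_split Q]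
  push_cast
  rw [← Finset.sum_filter_add_sum_filter_not (Finset.range (n + 1)) (fun r => Cen n r)]
  have h1 : ∑ r ∈ (Finset.range (n + 1)).filter (fun r => Cen n r),
      (Nat.card {M : Matroid (Fin n) // Mt r M ∧ Q M} : ℝ) ≤
      δ * (Nat.card {M : Matroid (Fin n) // All M} : ℝ) := by
    rw [card_total n]
    push_cast
    rw [Finset.mul_sum]
    calc ∑ r ∈ (Finset.range (n + 1)).filter (fun r => Cen n r),
          (Nat.card {M : Matroid (Fin n) // Mt r M ∧ Q M} : ℝ)
        ≤ ∑ r ∈ (Finset.range (n + 1)).filter (fun r => Cen n r),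
          δ * (Nat.card {M : Matroid (Fin n) // Mt r M} : ℝ) := by
          refine Finset.sum_le_sum fun r hr => ?_
          rw [Finset.mem_filter] at hr
          exact hc r hr.2
      _ ≤ _ := Finset.sum_le_sum_of_subset_of_nonneg (Finset.filter_subset _ _)
          fun r _ _ => by positivity
  have h2 : ∑ r ∈ (Finset.range (n + 1)).filter (fun r => ¬ Cen n r),
      (Nat.card {M : Matroid (Fin n) // Mt r M ∧ Q M} : ℝ) ≤
      δ * (Nat.card {M : Matroid (Fin n) // All M} : ℝ) := by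
    refine le_trans ?_ he
    push_cast
    calc ∑ r ∈ (Finset.range (n + 1)).filter (fun r => ¬ Cen n r),
          (Nat.card {M : Matroid (Fin n) // Mt r M ∧ Q M} : ℝ)
        ≤ ∑ r ∈ (Finset.range (n + 1)).filter (fun r => ¬ Cen n r),
          (Nat.card {M : Matroid (Fin n) // Mt r M} : ℝ) :=
          Finset.sum_le_sum fun r _ => by exact_mod_cast card_le_and (Mt r) Q
      _ ≤ _ := le_mul_of_one_le_left (Finset.sum_nonneg fun _ _ => by positivity) hf1
  calc _ ≤ δ * (Nat.card {M : Matroid (Fin n) // All M} : ℝ) +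
        δ * (Nat.card {M : Matroid (Fin n) // All M} : ℝ) := add_le_add h1 h2
    _ = _ := by ring

open Classical in
/-- summation over the ranks for the number of fixed matroids -/
lemma sum_ranks_iso {n : ℕ} {δ : ℝ} (hδ : 0 ≤ δ)
    (hc : ∀ r : ℕ, Cen n r →
      (∑ s ∈ (Finset.univ : Finset (Equiv.Perm (Fin n))).erase 1, ((Fix n r s).card : ℝ)) ≤
        δ * ((Mats n r).card : ℝ))
    (he : (n.factorial : ℝ) * ((∑ r ∈ (Finset.range (n + 1)).filter (fun r => ¬ Cen n r),
      Nat.card {M : Matroid (Fin n) // Mt r M} : ℕ) : ℝ) ≤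
      δ * (Nat.card {M : Matroid (Fin n) // All M} : ℝ)) :
    (∑ s ∈ (Finset.univ : Finset (Equiv.Perm (Fin n))).erase 1,
      (Nat.card {M : Matroid (Fin n) // All M ∧ Iso s M M} : ℝ)) ≤
      2 * δ * (Nat.card {M : Matroid (Fin n) // All M} : ℝ) := by
  set S := (Finset.univ : Finset (Equiv.Perm (Fin n))).erase 1 with hS
  have hScard : (S.card : ℝ) ≤ (n.factorial : ℝ) := by
    have h1 : S.card ≤ (Finset.univ : Finset (Equiv.Perm (Fin n))).card :=
      Finset.card_le_card (Finset.erase_subset _ _)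
    rw [Finset.card_univ, Fintype.card_perm, Fintype.card_fin] at h1
    exact_mod_cast h1
  have h0 : ∀ s ∈ S, (Nat.card {M : Matroid (Fin n) // All M ∧ Iso s M M} : ℝ) =
      ∑ r ∈ Finset.range (n + 1), (Nat.card {M : Matroid (Fin n) // Mt r M ∧ Iso s M M} : ℝ) := by
    intro s _
    rw [card_split (fun M => Iso s M M)]
    push_cast
    rfl
  rw [Finset.sum_congr rfl h0, Finset.sum_comm,
    ← Finset.sum_filter_add_sum_filter_not (Finset.range (n + 1)) (fun r => Cen n r)]
  have h1 : ∑ r ∈ (Finset.range (n + 1)).filter (fun r => Cen n r), ∑ s ∈ S,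
      (Nat.card {M : Matroid (Fin n) // Mt r M ∧ Iso s M M} : ℝ) ≤
      δ * (Nat.card {M : Matroid (Fin n) // All M} : ℝ) := by
    rw [card_total n]
    push_cast
    rw [Finset.mul_sum]
    calc ∑ r ∈ (Finset.range (n + 1)).filter (fun r => Cen n r), ∑ s ∈ S,
          (Nat.card {M : Matroid (Fin n) // Mt r M ∧ Iso s M M} : ℝ)
        ≤ ∑ r ∈ (Finset.range (n + 1)).filter (fun r => Cen n r),
          δ * (Nat.card {M : Matroid (Fin n) // Mt r M} : ℝ) := by
          refine Finset.sum_le_sum fun r hr => ?_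
          rw [Finset.mem_filter] at hr
          rw [card_mt]
          refine le_trans ?_ (hc r hr.2)
          exact Finset.sum_le_sum fun s _ => by exact_mod_cast card_iso_le s
      _ ≤ _ := Finset.sum_le_sum_of_subset_of_nonneg (Finset.filter_subset _ _)
          fun r _ _ => by positivity
  have h2 : ∑ r ∈ (Finset.range (n + 1)).filter (fun r => ¬ Cen n r), ∑ s ∈ S,
      (Nat.card {M : Matroid (Fin n) // Mt r M ∧ Iso s M M} : ℝ) ≤
      δ * (Nat.card {M : Matroid (Fin n) // All M} : ℝ) := by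
    refine le_trans ?_ he
    push_cast
    rw [Finset.mul_sum]
    refine Finset.sum_le_sum fun r _ => ?_
    calc ∑ s ∈ S, (Nat.card {M : Matroid (Fin n) // Mt r M ∧ Iso s M M} : ℝ)
        ≤ ∑ s ∈ S, (Nat.card {M : Matroid (Fin n) // Mt r M} : ℝ) :=
          Finset.sum_le_sum fun s _ => by exact_mod_cast card_le_and (Mt r) (fun M => Iso s M M)
      _ = (S.card : ℝ) * (Nat.card {M : Matroid (Fin n) // Mt r M} : ℝ) := by
          rw [Finset.sum_const, nsmul_eq_mul]
      _ ≤ _ := mul_le_mul_of_nonneg_right hScard (by positivity)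
  calc _ ≤ δ * (Nat.card {M : Matroid (Fin n) // All M} : ℝ) +
        δ * (Nat.card {M : Matroid (Fin n) // All M} : ℝ) := add_le_add h1 h2
    _ = _ := by ring

lemma card_noV8_le {n r : ℕ} :
    Nat.card {M : Matroid (Fin n) // Mt r M ∧ ¬ HasV8 M} ≤ (Fr n r).card := by
  classical
  have h1 := card_filter_bs (n := n) r (fun B => ¬ HasPat r (NB r B))
  have h2 : Nat.card {M : Matroid (Fin n) // Mt r M ∧ ¬ HasV8 M} ≤
      Nat.card {M : Matroid (Fin n) // Mt r M ∧ ¬ HasPat r (NB r (bs r M))} := by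
    apply Nat.card_le_card_of_injective
      (fun M : {M : Matroid (Fin n) // Mt r M ∧ ¬ HasV8 M} =>
        (⟨M.1, M.2.1, fun h => M.2.2 (hasV8_of_hasPat M.2.1 h)⟩ :
          {M : Matroid (Fin n) // Mt r M ∧ ¬ HasPat r (NB r (bs r M))}))
    intro A B h
    simp only [Subtype.mk.injEq] at h
    exact Subtype.ext h
  rw [h1] at h2
  refine h2.trans (le_of_eq ?_)
  rw [Fr]
  congr!

lemma main_ev (h1 : C1) (h2 : C2) (δ : ℝ) (hδ : 0 < δ) : ∀ᶠ n : ℕ in atTop,
    (1 - δ ≤ (Nat.card {M : Matroid (Fin n) // All M ∧ HasV8 M} : ℝ) /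
        (Nat.card {M : Matroid (Fin n) // All M} : ℝ) ∧
      (Nat.card {M : Matroid (Fin n) // All M ∧ HasV8 M} : ℝ) /
        (Nat.card {M : Matroid (Fin n) // All M} : ℝ) ≤ 1) ∧
    (1 - δ ≤ (Nat.card {S : Set (Matroid (Fin n)) // ∃ M : Matroid (Fin n),
          All M ∧ HasV8 M ∧ S = isoClass M} : ℝ) /
        (Nat.card {S : Set (Matroid (Fin n)) // ∃ M : Matroid (Fin n),
          All M ∧ S = isoClass M} : ℝ) ∧
      (Nat.card {S : Set (Matroid (Fin n)) // ∃ M : Matroid (Fin n),
          All M ∧ HasV8 M ∧ S = isoClass M} : ℝ) /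
        (Nat.card {S : Set (Matroid (Fin n)) // ∃ M : Matroid (Fin n),
          All M ∧ S = isoClass M} : ℝ) ≤ 1) := by
  filter_upwards [C1_all h1 (δ / 4) (by positivity), C2_all h2 (δ / 4) (by positivity),
    extreme_small (δ / 4) (by positivity)] with n hn1 hn2 hex
  have hb : (Nat.card {M : Matroid (Fin n) // All M ∧ ¬ HasV8 M} : ℝ) ≤
      δ / 2 * (Nat.card {M : Matroid (Fin n) // All M} : ℝ) := by
    have h := sum_ranks (n := n) (fun M => ¬ HasV8 M) (δ := δ / 4) (by positivity)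
      (fun r hr => by
        rw [card_mt]
        exact le_trans (by exact_mod_cast card_noV8_le) (hn1 r hr)) hex
    refine h.trans (le_of_eq (by ring))
  have hs : (∑ s ∈ (Finset.univ : Finset (Equiv.Perm (Fin n))).erase 1,
      (Nat.card {M : Matroid (Fin n) // All M ∧ Iso s M M} : ℝ)) ≤
      δ / 2 * (Nat.card {M : Matroid (Fin n) // All M} : ℝ) := by
    have h := sum_ranks_iso (n := n) (δ := δ / 4) (by positivity) hn2 hex
    refine h.trans (le_of_eq (by ring))
  have hne : ∃ M : Matroid (Fin n), All M := ⟨Matroid.loopyOn Set.univ, rfl⟩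
  have hl := labelled_ratio (n := n) All HasV8 hne (δ / 2) hb
  have hc := class_ratio (n := n) (δ / 2) (by positivity) hb hs
  exact ⟨⟨by linarith [hl.1], hl.2⟩, ⟨by linarith [hc.1], hc.2⟩⟩

theorem ratios (h1 : C1) (h2 : C2) :
    Tendsto (fun n : ℕ =>
      (Nat.card {M : Matroid (Fin n) // All M ∧ HasV8 M} : ℝ) /
        (Nat.card {M : Matroid (Fin n) // All M} : ℝ)) atTop (nhds 1) ∧
    Tendsto (fun n : ℕ =>
      (Nat.card {S : Set (Matroid (Fin n)) // ∃ M : Matroid (Fin n),
          All M ∧ HasV8 M ∧ S = isoClass M} : ℝ) /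
        (Nat.card {S : Set (Matroid (Fin n)) // ∃ M : Matroid (Fin n),
          All M ∧ S = isoClass M} : ℝ)) atTop (nhds 1) :=
  ⟨tendsto_one fun δ hδ => (main_ev h1 h2 δ hδ).mono fun _ h => h.1,
    tendsto_one fun δ hδ => (main_ev h1 h2 δ hδ).mono fun _ h => h.2⟩

/-- the frozen statement S08241 from the rank-level theorems -/
theorem frozen (h1 : C1) (h2 : C2) :
    ∀ V : (n : ℕ) → Matroid (Fin n) → Prop,
      (∀ (n : ℕ) (M : Matroid (Fin n)), V n M ↔
        ∃ C D : Set (Fin n), ∃ φ : Fin 8 → Fin n, Function.Injective φ ∧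
          Set.range φ = ((M.contract C).delete D).E ∧
          ∀ I : Finset (Fin 8),
            (((M.contract C).delete D).Indep (φ '' (I : Set (Fin 8))) ↔
              (I.card ≤ 3 ∨
                (I.card = 4 ∧ I ≠ ({0, 1, 2, 3} : Finset (Fin 8)) ∧
                  I ≠ ({0, 1, 4, 5} : Finset (Fin 8)) ∧
                  I ≠ ({0, 1, 6, 7} : Finset (Fin 8)) ∧
                  I ≠ ({2, 3, 4, 5} : Finset (Fin 8)) ∧
                  I ≠ ({2, 3, 6, 7} : Finset (Fin 8)))))) →
      Filter.Tendsto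
        (fun n : ℕ =>
          (Nat.card {M : Matroid (Fin n) // M.E = Set.univ ∧ V n M} : ℝ) /
            (Nat.card {M : Matroid (Fin n) // M.E = Set.univ} : ℝ))
        Filter.atTop (nhds 1) ∧
      Filter.Tendsto
        (fun n : ℕ =>
          (Nat.card {S : Set (Matroid (Fin n)) // ∃ M : Matroid (Fin n),
              M.E = Set.univ ∧ V n M ∧
              S = {N : Matroid (Fin n) | N.E = Set.univ ∧
                ∃ e : Equiv.Perm (Fin n), ∀ I : Set (Fin n), M.Indep I ↔ N.Indep (e '' I)}} : ℝ) /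
            (Nat.card {S : Set (Matroid (Fin n)) // ∃ M : Matroid (Fin n),
              M.E = Set.univ ∧
              S = {N : Matroid (Fin n) | N.E = Set.univ ∧
                ∃ e : Equiv.Perm (Fin n), ∀ I : Set (Fin n), M.Indep I ↔ N.Indep (e '' I)}} : ℝ))
        Filter.atTop (nhds 1) := by
  intro V hV
  have hVe : ∀ n (M : Matroid (Fin n)), V n M = HasV8 M := fun n M => propext (hV n M)
  simp only [hVe]
  exact ratios h1 h2

end Pool.Agent.H97.VZ
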