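import Pool.Agent.H97.VZ.Bridge

/-! MODULE Z/Split (about 90 lines). Adapt `Pool/Agent/H8/VM/H4a_Split.lean` (same two theorems
for sparse paving matroids): a matroid on `Fin n` has a rank `r <= n`; `M -> bs r M` is injective
(`bs_inj`) with values in the powerset of `Base n r`. -/

open scoped BigOperators

namespace Pool.Agent.H97.VZ

open Pool.Agent.H28.Johnson Pool.Agent.H28.V8 Pool.Agent.H8.VM Pool.Agent.H13.VM

variable {n : ℕ}

theorem card_split (Q : Matroid (Fin n) → Prop) :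
    Nat.card {M : Matroid (Fin n) // All M ∧ Q M} =
      ∑ r ∈ Finset.range (n + 1), Nat.card {M : Matroid (Fin n) // Mt r M ∧ Q M} := by
  classical
  have hfin : ∀ r : Fin (n + 1), Finite {M : Matroid (Fin n) // Mt r M ∧ Q M} := by
    intro r
    refine Finite.of_injective
      (fun M : {M : Matroid (Fin n) // Mt r M ∧ Q M} => bs (r : ℕ) M.1) ?_
    intro M N h
    exact Subtype.ext (bs_inj M.2.1 N.2.1 h)
  have hrank : ∀ M : Matroid (Fin n), All M → ∃ r : ℕ, r < n + 1 ∧ M.eRank = (r : ℕ∞) := by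
    intro M hM
    have h1 := M.eRank_le_encard_ground
    rw [show M.E = Set.univ from hM, Set.encard_univ, ENat.card_eq_coe_fintype_card,
      Fintype.card_fin] at h1
    have h2 : M.eRank ≠ ⊤ := fun h => by
      rw [h] at h1
      exact absurd h1 (by simp)
    refine ⟨M.eRank.toNat, ?_, (ENat.natCast_toNat h2).symm⟩
    rw [← ENat.natCast_toNat h2] at h1
    have h3 : M.eRank.toNat ≤ n := by exact_mod_cast h1
    omega
  rw [Finset.sum_range (fun r => Nat.card {M : Matroid (Fin n) // Mt r M ∧ Q M}),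
    ← Nat.card_sigma]
  refine (Nat.card_congr (Equiv.ofBijective
    (fun x : (Σ r : Fin (n + 1), {M : Matroid (Fin n) // Mt r M ∧ Q M}) =>
      (⟨x.2.1, ⟨x.2.2.1.1, x.2.2.2⟩⟩ :
        {M : Matroid (Fin n) // All M ∧ Q M})) ⟨?_, ?_⟩)).symm
  · rintro ⟨r, M, hM⟩ ⟨r', M', hM'⟩ h
    have hMM : M = M' := congrArg Subtype.val h
    subst hMM
    have hr : r = r' := by
      have h1 := hM.1.2
      rw [hM'.1.2] at h1
      have h2 : (r' : ℕ) = (r : ℕ) := by exact_mod_cast h1
      exact Fin.ext h2.symm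
    subst hr
    rfl
  · rintro ⟨M, hM, hQ⟩
    obtain ⟨r, hr, hr2⟩ := hrank M hM
    exact ⟨⟨⟨r, hr⟩, ⟨M, ⟨hM, hr2⟩, hQ⟩⟩, rfl⟩

theorem card_mt_le {r : ℕ} : Nat.card {M : Matroid (Fin n) // Mt r M} ≤ 2 ^ (n.choose r) := by
  classical
  have h : Nat.card {M : Matroid (Fin n) // Mt r M} ≤
      Nat.card {I : Finset (Finset (Fin n)) // I ∈ (Base n r).powerset} := by
    refine Nat.card_le_card_of_injective (fun M => ⟨bs r M.1, ?_⟩) ?_
    · rw [Finset.mem_powerset]
      exact Finset.filter_subset _ _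
    · intro M N h
      exact Subtype.ext (bs_inj M.2 N.2 (congrArg Subtype.val h))
  refine h.trans (le_of_eq ?_)
  rw [Nat.card_eq_finsetCard, Finset.card_powerset, card_Base]

end Pool.Agent.H97.VZ
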